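import Pool.Agent.H23.LC.Targets
import Pool.Agent.H3.HK.GA
import Pool.Agent.H12.RC.GS
import Pool.Agent.H16.HK.PS

/-!
# MP_52e316_nt: module PX, Poisson summation with a complex shift
-/

set_option autoImplicit false

open MeasureTheory Set Filter Complex

namespace Pool.Agent.H65.GLB

open Pool.Agent.H28.RC Pool.Agent.H25.HK Pool.Agent.H25 Pool.Agent.H23.LC

variable {ι : Type} [Fintype ι]

/-- the Gaussian with a complex shift -/
noncomputable def gs (w : ι → ℂ) (y : ι → ℝ) : ℂ :=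
  cexp (-Real.pi * ∑ i, ((y i : ℝ) : ℂ) ^ 2 - 2 * Real.pi * ∑ i, w i * ((y i : ℝ) : ℂ))

theorem gs_prod (w : ι → ℂ) (y : ι → ℝ) :
    gs w y = ∏ i, cexp (-Real.pi * ((y i : ℝ) : ℂ) ^ 2 - 2 * Real.pi * (w i * ((y i : ℝ) : ℂ))) := by
  unfold gs
  rw [← Complex.exp_sum, Finset.sum_sub_distrib, Finset.mul_sum, Finset.mul_sum]

theorem continuous_gs (w : ι → ℂ) : Continuous (gs w) := by
  unfold gs
  fun_prop

theorem norm_gs (w : ι → ℂ) (y : ι → ℝ) :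
    ‖gs w y‖ = Real.exp (-Real.pi * ∑ i, y i ^ 2 - 2 * Real.pi * ∑ i, (w i).re * y i) := by
  unfold gs
  rw [Complex.norm_exp]
  congr 1
  have e : (-(Real.pi : ℂ) * ∑ i, ((y i : ℝ) : ℂ) ^ 2 - 2 * Real.pi * ∑ i, w i * ((y i : ℝ) : ℂ)) =
      ((-Real.pi * ∑ i, y i ^ 2 : ℝ) : ℂ) - ((2 * Real.pi : ℝ) : ℂ) * ∑ i, w i * ((y i : ℝ) : ℂ) := by
    push_cast
    ring
  rw [e, Complex.sub_re, Complex.ofReal_re, Complex.re_ofReal_mul, Complex.re_sum]
  congr 2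
  refine Finset.sum_congr rfl fun i _ => ?_
  rw [Complex.re_mul_ofReal]

theorem norm_gs_le (w : ι → ℂ) (y : ι → ℝ) :
    ‖gs w y‖ ≤ Real.exp (2 * Real.pi * ∑ i, (w i).re ^ 2) *
      gj ∅ (fun i => (Real.sqrt 2)⁻¹ * y i) := by
  rw [norm_gs]
  unfold gj
  rw [Finset.prod_empty, one_mul, ← Real.exp_add]
  refine Real.exp_le_exp.2 ?_
  have h2 : (Real.sqrt 2)⁻¹ ^ 2 = 1 / 2 := by
    rw [inv_pow, Real.sq_sqrt (by norm_num)]
    norm_num
  have e1 : ∑ i, ((Real.sqrt 2)⁻¹ * y i) ^ 2 = 1 / 2 * ∑ i, y i ^ 2 := by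
    rw [Finset.mul_sum]
    refine Finset.sum_congr rfl fun i _ => ?_
    rw [mul_pow, h2]
  rw [e1]
  have h3 : 0 ≤ ∑ i, (y i + 2 * (w i).re) ^ 2 := Finset.sum_nonneg fun i _ => sq_nonneg _
  have h4 : ∑ i, (y i + 2 * (w i).re) ^ 2 = ∑ i, y i ^ 2 + 4 * ∑ i, (w i).re * y i +
      4 * ∑ i, (w i).re ^ 2 := by
    rw [Finset.mul_sum, Finset.mul_sum, ← Finset.sum_add_distrib, ← Finset.sum_add_distrib]
    refine Finset.sum_congr rfl fun i _ => ?_
    ring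
  rw [h4] at h3
  nlinarith [mul_nonneg Real.pi_pos.le h3]

theorem dom [DecidableEq ι] (A : Matrix ι ι ℝ) (hA : A.det ≠ 0) (x₀ : ι → ℝ) (w : ι → ℂ) :
    ∃ B : (ι → ℤ) → ℝ, Summable B ∧ ∀ (m : ι → ℤ) (x : ι → ℝ), (∀ i, x i ∈ Icc (0 : ℝ) 1) →
      ‖gs w (A.mulVec (fun i => x i + m i + x₀ i))‖ ≤ B m := by
  have hs : (Real.sqrt 2)⁻¹ ≠ 0 := by positivity
  have hA' : ((Real.sqrt 2)⁻¹ • A).det ≠ 0 := by
    rw [Matrix.det_smul]
    exact mul_ne_zero (pow_ne_zero _ hs) hA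
  obtain ⟨B, hB, hB2⟩ := Pool.Agent.H12.RC.pf_GS ι _ ∅ hA' x₀
  obtain ⟨c, hc⟩ : ∃ c : ℝ, c = Real.exp (2 * Real.pi * ∑ i, (w i).re ^ 2) := ⟨_, rfl⟩
  have hc0 : 0 ≤ c := by rw [hc]; exact (Real.exp_pos _).le
  have hBc : Summable (fun m => c * B m) := hB.mul_left c
  refine ⟨fun m => c * B m, hBc, ?_⟩
  intro m x hx
  have h1 := norm_gs_le w (A.mulVec (fun i => x i + m i + x₀ i))
  rw [← hc] at h1
  have h2 := (le_abs_self _).trans (hB2 m x hx)
  have e : ((Real.sqrt 2)⁻¹ • A).mulVec (fun i => x i + m i + x₀ i) =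
      fun i => (Real.sqrt 2)⁻¹ * A.mulVec (fun i => x i + m i + x₀ i) i := by
    rw [Matrix.smul_mulVec]
    rfl
  rw [e] at h2
  exact h1.trans (mul_le_mul_of_nonneg_left h2 hc0)

/-- the Fourier transform in one variable -/
theorem fac1 (w : ℂ) (k : ℝ) :
    Integrable (fun v : ℝ => cexp (-(2 * Real.pi * (k * v) : ℝ) * I) *
      cexp (-Real.pi * ((v : ℝ) : ℂ) ^ 2 - 2 * Real.pi * (w * ((v : ℝ) : ℂ)))) ∧
    ∫ v : ℝ, cexp (-(2 * Real.pi * (k * v) : ℝ) * I) *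
      cexp (-Real.pi * ((v : ℝ) : ℂ) ^ 2 - 2 * Real.pi * (w * ((v : ℝ) : ℂ))) =
      cexp (Real.pi * w ^ 2) * cexp (-Real.pi * ((k : ℝ) : ℂ) ^ 2 + 2 * Real.pi * I *
        (w * ((k : ℝ) : ℂ))) := by
  have hb : (-(Real.pi : ℂ)).re < 0 := by
    simpa using Real.pi_pos
  have e : (fun v : ℝ => cexp (-(2 * Real.pi * (k * v) : ℝ) * I) *
      cexp (-Real.pi * ((v : ℝ) : ℂ) ^ 2 - 2 * Real.pi * (w * ((v : ℝ) : ℂ)))) =
      fun v : ℝ => cexp (-Real.pi * ((v : ℝ) : ℂ) ^ 2 + (-(2 * Real.pi * k * I) - 2 * Real.pi * w) *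
        ((v : ℝ) : ℂ) + 0) := by
    funext v
    rw [← Complex.exp_add]
    congr 1
    push_cast
    ring
  rw [e]
  refine ⟨integrable_cexp_quadratic' hb _ _, ?_⟩
  rw [integral_cexp_quadratic hb]
  have hpi0 : (Real.pi : ℂ) ≠ 0 := Complex.ofReal_ne_zero.2 Real.pi_ne_zero
  rw [neg_neg, div_self hpi0, Complex.one_cpow, one_mul, ← Complex.exp_add]
  congr 1
  field_simp
  ring_nf
  rw [Complex.I_sq]
  ring

theorem ft [DecidableEq ι] (A : Matrix ι ι ℝ) (hA : A.det ≠ 0) (w : ι → ℂ) (k : ι → ℝ) :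
    Integrable (fun x : ι → ℝ => gs w (A.mulVec x)) ∧
    ∫ x : ι → ℝ, cexp (-(2 * Real.pi * (∑ i, k i * x i) : ℝ) * I) * gs w (A.mulVec x) =
      ((|A.det|⁻¹ : ℝ) : ℂ) * (cexp (Real.pi * ∑ i, w i ^ 2) *
        cexp (-Real.pi * ∑ i, (((A⁻¹).transpose.mulVec k i : ℝ) : ℂ) ^ 2 + 2 * Real.pi * I * ∑ i,
          w i * (((A⁻¹).transpose.mulVec k i : ℝ) : ℂ))) := by
  have hAu : IsUnit A.det := hA.isUnit
  set κ : ι → ℝ := (A⁻¹).transpose.mulVec k with hκ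
  have hkx : ∀ x, ∑ i, k i * x i = ∑ i, κ i * (A.mulVec x) i := by
    intro x
    change k ⬝ᵥ x = κ ⬝ᵥ A.mulVec x
    rw [hκ, Matrix.mulVec_transpose, ← Matrix.dotProduct_mulVec, Matrix.mulVec_mulVec,
      Matrix.nonsing_inv_mul _ hAu, Matrix.one_mulVec]
  set F : ι → ℝ → ℂ := fun i v => cexp (-(2 * Real.pi * (κ i * v) : ℝ) * I) *
    cexp (-Real.pi * ((v : ℝ) : ℂ) ^ 2 - 2 * Real.pi * (w i * ((v : ℝ) : ℂ))) with hF
  have hint : Integrable (fun v : ι → ℝ => ∏ i, F i (v i)) :=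
    Integrable.fintype_prod fun i => (fac1 (w i) (κ i)).1
  have hval : ∫ v : ι → ℝ, ∏ i, F i (v i) = ∏ i, ∫ x, F i x :=
    integral_fintype_prod_volume_eq_prod F
  have hfx : ∀ x, cexp (-(2 * Real.pi * (∑ i, k i * x i) : ℝ) * I) *
      gs w (A.mulVec x) = (fun v : ι → ℝ => ∏ i, F i (v i)) (A.mulVec x) := by
    intro x
    rw [hkx, gs_prod]
    simp only [hF]
    rw [Finset.prod_mul_distrib]
    congr 1
    rw [← Complex.exp_sum]
    congr 1
    push_cast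
    rw [Finset.mul_sum, ← Finset.sum_neg_distrib, Finset.sum_mul]
  obtain ⟨h3, h4⟩ := Pool.Agent.H3.HK.subst A hA _ hint
  refine ⟨?_, ?_⟩
  · have h6 : Integrable (fun x => ‖gs w (A.mulVec x)‖) := by
      refine h3.norm.congr (Filter.Eventually.of_forall fun x => ?_)
      change ‖(fun v : ι → ℝ => ∏ i, F i (v i)) (A.mulVec x)‖ = _
      rw [← hfx, norm_mul, ← Complex.ofReal_neg, Complex.norm_exp_ofReal_mul_I, one_mul]
    refine (integrable_norm_iff ?_).1 h6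
    refine Continuous.aestronglyMeasurable ?_
    have hc : Continuous fun x : ι → ℝ => A.mulVec x := by fun_prop
    exact (continuous_gs w).comp hc
  · rw [integral_congr_ae (Filter.Eventually.of_forall hfx), h4, hval]
    simp only [hF]
    rw [Finset.prod_congr rfl fun i _ => (fac1 (w i) (κ i)).2, Finset.prod_mul_distrib,
      ← Complex.exp_sum, ← Complex.exp_sum, Finset.sum_add_distrib, Finset.mul_sum, Finset.mul_sum,
      Finset.mul_sum]

theorem pf_PX : U_PX := by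
  intro ι _ _ A hA x₀ w
  have hA' : (A⁻¹).transpose.det ≠ 0 := by
    rw [Matrix.det_transpose, Matrix.det_nonsing_inv]
    simpa using hA
  obtain ⟨B, hB, hB2⟩ := dom A hA x₀ w
  have k1 : Summable (fun m : ι → ℤ => ‖gs w (A.mulVec (fun i => (m i : ℝ) + x₀ i))‖) := by
    refine Summable.of_nonneg_of_le (fun m => norm_nonneg _) (fun m => ?_) hB
    have := hB2 m (fun _ => 0) (fun i => ⟨le_rfl, zero_le_one⟩)
    simpa using this
  have k2 : Summable (fun k : ι → ℤ => ‖cexp (-Real.pi * ∑ i,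
      (((A⁻¹).transpose.mulVec (fun i => (k i : ℝ)) i : ℝ) : ℂ) ^ 2 + 2 * Real.pi * I * ∑ i,
        w i * (((A⁻¹).transpose.mulVec (fun i => (k i : ℝ)) i : ℝ) : ℂ))‖) := by
    obtain ⟨B', hB', hB2'⟩ := dom _ hA' (fun _ => 0) (fun i => -I * w i)
    refine Summable.of_nonneg_of_le (fun m => norm_nonneg _) (fun m => ?_) hB'
    have h := hB2' m (fun _ => 0) (fun i => ⟨le_rfl, zero_le_one⟩)
    have e : (fun i => (0 : ℝ) + (m i : ℝ) + 0) = fun i => (m i : ℝ) := by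
      funext i
      ring
    rw [e] at h
    refine le_trans (le_of_eq ?_) h
    unfold gs
    congr 2
    have : ∑ i, -I * w i * ((((A⁻¹).transpose.mulVec (fun i => (m i : ℝ))) i : ℝ) : ℂ) =
        -I * ∑ i, w i * ((((A⁻¹).transpose.mulVec (fun i => (m i : ℝ))) i : ℝ) : ℂ) := by
      rw [Finset.mul_sum]
      exact Finset.sum_congr rfl fun i _ => by ring
    rw [this]
    ring
  refine ⟨k1, k2, ?_⟩
  let f : (ι → ℝ) → ℂ := fun x => gs w (A.mulVec (x + x₀))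
  have hint : Integrable (fun x : ι → ℝ => gs w (A.mulVec x)) := (ft A hA w 0).1
  have hF : ∀ k : ι → ℤ,
      ∫ x : ι → ℝ, cexp (-(2 * Real.pi * (∑ i, (k i : ℝ) * x i) : ℝ) * I) * f x =
      ((|A.det|⁻¹ : ℝ) : ℂ) * (cexp (Real.pi * ∑ i, w i ^ 2) *
        (cexp ((2 * Real.pi * (∑ i, (k i : ℝ) * x₀ i) : ℝ) * I) *
        cexp (-Real.pi * ∑ i,
      (((A⁻¹).transpose.mulVec (fun i => (k i : ℝ)) i : ℝ) : ℂ) ^ 2 + 2 * Real.pi * I * ∑ i,
        w i * (((A⁻¹).transpose.mulVec (fun i => (k i : ℝ)) i : ℝ) : ℂ)))) := by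
    intro k
    have e1 := integral_add_right_eq_self (μ := (volume : Measure (ι → ℝ)))
      (fun x : ι → ℝ => cexp (-(2 * Real.pi * (∑ i, (k i : ℝ) * (x i - x₀ i)) : ℝ) *
        I) * gs w (A.mulVec x)) x₀
    have e2 : (fun x : ι → ℝ => cexp (-(2 * Real.pi * (∑ i, (k i : ℝ) * x i) : ℝ) *
        I) * f x) = fun x : ι → ℝ => (fun x : ι → ℝ =>
          cexp (-(2 * Real.pi * (∑ i, (k i : ℝ) * (x i - x₀ i)) : ℝ) *
        I) * gs w (A.mulVec x)) (x + x₀) := by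
      funext x
      simp [f]
    rw [e2, e1]
    have e3 : (fun x : ι → ℝ => cexp (-(2 * Real.pi * (∑ i, (k i : ℝ) * (x i - x₀ i)) : ℝ) *
        I) * gs w (A.mulVec x)) = fun x : ι → ℝ =>
        cexp ((2 * Real.pi * (∑ i, (k i : ℝ) * x₀ i) : ℝ) * I) *
        (cexp (-(2 * Real.pi * (∑ i, (k i : ℝ) * x i) : ℝ) * I) * gs w (A.mulVec x)) := by
      funext x
      rw [← mul_assoc, ← Complex.exp_add]
      congr 2
      have : ∑ i, (k i : ℝ) * (x i - x₀ i) = ∑ i, (k i : ℝ) * x i - ∑ i, (k i : ℝ) * x₀ i := by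
        rw [← Finset.sum_sub_distrib]
        exact Finset.sum_congr rfl fun i _ => by ring
      rw [this]
      push_cast
      ring
    rw [e3, integral_const_mul, (ft A hA w (fun i => (k i : ℝ))).2]
    ring
  have h := Pool.Agent.H16.HK.ps ι f B ((continuous_gs w).comp
      (Continuous.matrix_mulVec continuous_const (continuous_id.add continuous_const)))
    (hint.comp_add_right x₀)
    (fun m x hx => by
      change ‖gs w (A.mulVec ((fun i => x i + (m i : ℝ)) + x₀))‖ ≤ B m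
      exact hB2 m x hx) hB
    (by
      simp only [hF]
      refine Summable.mul_left _ (Summable.mul_left _ (Summable.of_norm ?_))
      refine k2.congr fun k => ?_
      rw [norm_mul, Complex.norm_exp_ofReal_mul_I, one_mul])
  simp only [hF] at h
  rw [tsum_mul_left, tsum_mul_left] at h
  have h' : ∑' m : ι → ℤ, cexp (-Real.pi * ∑ i,
      ((A.mulVec (fun i => (m i : ℝ) + x₀ i) i : ℝ) : ℂ) ^ 2 - 2 * Real.pi * ∑ i,
        w i * ((A.mulVec (fun i => (m i : ℝ) + x₀ i) i : ℝ) : ℂ)) =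
      ∑' m : ι → ℤ, f (fun i => (m i : ℝ)) := rfl
  rw [h', h]
  have hexp : cexp (-Real.pi * ∑ i, w i ^ 2) * cexp (Real.pi * ∑ i, w i ^ 2) = 1 := by
    rw [← Complex.exp_add, neg_mul, neg_add_cancel, Complex.exp_zero]
  rw [mul_left_comm, ← mul_assoc (cexp (-Real.pi * ∑ i, w i ^ 2)), hexp, one_mul]

end Pool.Agent.H65.GLB
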