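import Pool.Agent.H23.LC.Targets
import Pool.Agent.H23.LB.Targets

/-!
# MP_52e316_nt: module MV, the mean value theorem
-/

set_option autoImplicit false

open NumberField NumberField.InfinitePlace NumberField.Units
  NumberField.Units.dirichletUnitTheorem MeasureTheory Set Filter Complex
open scoped nonZeroDivisors ENNReal

namespace Pool.Agent.H65.GLB

open Pool.Agent.H25.HK Pool.Agent.H23.LB Pool.Agent.H23.LC
open Pool.Agent.H28.RC (Rep ft idl)

theorem countable_K (K : Type) [Field K] [NumberField K] : Countable K := by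
  have b := Module.finBasis ℚ K
  exact b.equivFun.toEquiv.injective.countable

theorem measurable_an {K : Type} [Field K] [NumberField K] (v : InfinitePlace K) :
    Measurable (an v) := by
  classical
  unfold an
  by_cases hv : v.IsReal
  · simp only [hv, if_true]
    exact Measurable.ite measurableSet_Iio measurable_const measurable_const
  · simp only [hv, if_false]
    fun_prop

theorem measurable_NP {K : Type} [Field K] [NumberField K] (δ Y : ℝ) (M : FI K) (τ : ℝ)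
    (z : logSpace K) : Measurable (fun θ => NP δ Y M τ z θ) := by
  classical
  have := countable_K K
  unfold NP
  refine Measurable.ennreal_tsum fun x => ?_
  refine Measurable.ite ?_ measurable_const measurable_const
  unfold Bp
  rw [Set.setOf_forall]
  refine MeasurableSet.iInter fun v => ?_
  refine measurableSet_le ?_ measurable_const
  exact (((measurable_const.mul ((measurable_an v).comp (measurable_pi_apply v)))).sub
    measurable_const).norm

open scoped Classical in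
theorem fub {K : Type} [Field K] [NumberField K]
    (g : logSpace K × ℝ × (InfinitePlace K → ℝ) → ℝ≥0∞) (hg : Measurable g) :
    ∫⁻ p in Fd K ×ˢ (univ : Set ℝ) ×ˢ An K, g p =
      ∫⁻ z in Fd K, ∫⁻ τ : ℝ, ∫⁻ θ in An K, g (z, τ, θ) := by
  rw [Measure.volume_eq_prod, ← Measure.prod_restrict, lintegral_prod _ hg.aemeasurable]
  refine lintegral_congr fun z => ?_
  rw [Measure.volume_eq_prod, ← Measure.prod_restrict, Measure.restrict_univ]
  exact lintegral_prod (fun y => g (z, y))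
    (hg.comp (measurable_const.prodMk measurable_id)).aemeasurable

theorem real_ineq (n np r2 : ℕ) (hn : 0 < n) (hsum : np + r2 = n)
    (c C1 C2 w cw κ B β H Y dd N T δ : ℝ) (hc : 0 < c) (hC1 : 0 ≤ C1) (hC2 : 0 ≤ C2) (hw : 1 ≤ w)
    (hcw0 : 0 ≤ cw) (hcw : cw ≤ w) (hκ : 0 < κ) (hκ1 : κ ≤ 1) (hH : 0 ≤ H) (hY : 0 < Y)
    (hdd : 0 < dd) (hN : 0 < N) (hT : 1 ≤ T) (hδ : δ = 1 / (64 * n * T)) :
    ((w * (c * δ ^ n)) ^ 2)⁻¹ * ((2 * Real.pi * (2 * Real.pi) ^ np * H) *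
      (β ^ 2 * ((C2 * δ ^ r2) * (C1 * κ ^ (-B) * (2 * δ) ^ np * cw *
        (dd * (N * (2 * δ) ^ (-(n : ℝ)))) ^ κ *
          (Y * (1 + Y / (Real.sqrt dd * (N * (2 * δ) ^ (-(n : ℝ)))))))))) ≤
    ((c ^ 2)⁻¹ * (2 * Real.pi * (2 * Real.pi) ^ n) * C2 * C1 * 2 ^ n * (64 * n) ^ n *
      (32 * n) ^ n) * κ ^ (-B) * (dd * (N * T ^ n)) ^ κ * (T ^ n * H) *
        (β ^ 2 * (Y * (1 + Y / (Real.sqrt dd * (N * T ^ n))))) := by
  have hn1 : (1 : ℝ) ≤ n := by exact_mod_cast hn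
  have hT0 : 0 < T := by linarith
  have hδ0 : 0 < δ := by rw [hδ]; positivity
  have hw0 : 0 < w := by linarith
  -- (1)
  have h1 : (2 * δ) ^ (-(n : ℝ)) = (32 * n) ^ n * T ^ n := by
    have e : 2 * δ = (32 * n * T)⁻¹ := by
      rw [hδ]
      field_simp
      norm_num
    rw [e, Real.rpow_neg (by positivity), Real.rpow_natCast, inv_pow, inv_inv, mul_pow]
  rw [h1]
  have h32 : (1 : ℝ) ≤ (32 * n) ^ n := one_le_pow₀ (by linarith)
  -- (2)
  have h2 : (dd * (N * ((32 * n) ^ n * T ^ n))) ^ κ ≤ (32 * n) ^ n * (dd * (N * T ^ n)) ^ κ := by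
    have e : dd * (N * ((32 * n : ℝ) ^ n * T ^ n)) = (32 * n) ^ n * (dd * (N * T ^ n)) := by ring
    rw [e, Real.mul_rpow (by positivity) (by positivity)]
    refine mul_le_mul_of_nonneg_right ?_ (by positivity)
    calc (((32 * n : ℝ)) ^ n) ^ κ ≤ ((32 * n : ℝ) ^ n) ^ (1 : ℝ) :=
          Real.rpow_le_rpow_of_exponent_le h32 hκ1
      _ = _ := Real.rpow_one _
  -- (3)
  have h3 : Y * (1 + Y / (Real.sqrt dd * (N * ((32 * n) ^ n * T ^ n)))) ≤
      Y * (1 + Y / (Real.sqrt dd * (N * T ^ n))) := by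
    refine mul_le_mul_of_nonneg_left ?_ hY.le
    refine add_le_add le_rfl ?_
    refine div_le_div_of_nonneg_left hY.le (by positivity) ?_
    refine mul_le_mul_of_nonneg_left ?_ (by positivity)
    refine mul_le_mul_of_nonneg_left ?_ hN.le
    exact le_mul_of_one_le_left (by positivity) h32
  -- (4)
  have h4 : ((w * (c * δ ^ n)) ^ 2)⁻¹ * (δ ^ r2 * ((2 * δ) ^ np * cw)) ≤
      (c ^ 2)⁻¹ * (2 ^ n * ((64 * n) ^ n * T ^ n)) := by
    have e1 : (64 * n : ℝ) ^ n * T ^ n = (δ ^ n)⁻¹ := by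
      rw [hδ, one_div, inv_pow, inv_inv, mul_pow _ T n]
    have e2 : δ ^ r2 * ((2 * δ) ^ np * cw) = δ ^ n * (2 ^ np * cw) := by
      rw [← hsum, mul_pow, pow_add]
      ring
    rw [e1, e2]
    have e3 : ((w * (c * δ ^ n)) ^ 2)⁻¹ * (δ ^ n * (2 ^ np * cw)) =
        (c ^ 2)⁻¹ * ((2 ^ np * (cw / w ^ 2)) * (δ ^ n)⁻¹) := by
      field_simp
    rw [e3, mul_assoc]
    refine mul_le_mul_of_nonneg_left ?_ (by positivity)
    rw [← mul_assoc]
    refine mul_le_mul_of_nonneg_right ?_ (by positivity)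
    have e4 : cw / w ^ 2 ≤ 1 := by
      rw [div_le_one (by positivity)]
      nlinarith
    calc (2 : ℝ) ^ np * (cw / w ^ 2) ≤ 2 ^ np * 1 := mul_le_mul_of_nonneg_left e4 (by positivity)
      _ ≤ 2 ^ n := by
          rw [mul_one]
          exact pow_le_pow_right₀ (by norm_num) (by omega)
  -- (5)
  have h5 : 2 * Real.pi * (2 * Real.pi) ^ np ≤ 2 * Real.pi * (2 * Real.pi) ^ n := by
    refine mul_le_mul_of_nonneg_left ?_ (by positivity)
    refine pow_le_pow_right₀ ?_ (by omega)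
    nlinarith [Real.pi_gt_three]
  have hκB : 0 < κ ^ (-B) := Real.rpow_pos_of_pos hκ _
  calc _ = (((w * (c * δ ^ n)) ^ 2)⁻¹ * (δ ^ r2 * ((2 * δ) ^ np * cw))) *
        (2 * Real.pi * (2 * Real.pi) ^ np) * (dd * (N * ((32 * n) ^ n * T ^ n))) ^ κ *
        (Y * (1 + Y / (Real.sqrt dd * (N * ((32 * n) ^ n * T ^ n))))) *
        (H * β ^ 2 * C2 * C1 * κ ^ (-B)) := by ring
    _ ≤ ((c ^ 2)⁻¹ * (2 ^ n * ((64 * n) ^ n * T ^ n))) *
        (2 * Real.pi * (2 * Real.pi) ^ n) * ((32 * n) ^ n * (dd * (N * T ^ n)) ^ κ) *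
        (Y * (1 + Y / (Real.sqrt dd * (N * T ^ n)))) *
        (H * β ^ 2 * C2 * C1 * κ ^ (-B)) := by
        refine mul_le_mul_of_nonneg_right ?_ (by positivity)
        refine mul_le_mul ?_ h3 (by positivity) (by positivity)
        refine mul_le_mul ?_ h2 (by positivity) (by positivity)
        exact mul_le_mul h4 h5 (by positivity) (by positivity)
    _ = _ := by ring

open scoped Classical in
theorem pf_MV (hBT : U_BT) (hUB : U_UB) (hUH : U_UH) (hSM : U_SM) (hPS : U_PS) (hTH : U_TH)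
    (hCN : U_CN) (hSY : T_SY) : U_MV := by
  intro n hn
  obtain ⟨c, hc, hUH⟩ := hUH n hn
  obtain ⟨C2, hC2, hTH⟩ := hTH n hn
  obtain ⟨C1, B, hC1, hB, hCN⟩ := hCN n hn
  have hn' : (0 : ℝ) < n := by exact_mod_cast hn
  have hn1 : (1 : ℝ) ≤ n := by exact_mod_cast hn
  refine ⟨(c ^ 2)⁻¹ * (2 * Real.pi * (2 * Real.pi) ^ n) * C2 * C1 * 2 ^ n * (64 * n) ^ n *
    (32 * n) ^ n, B, by positivity, hB, ?_⟩
  intro κ hκ hκ1 K _ _ hK f hf T hT S hS Y β b hY hβ hb
  obtain ⟨D⟩ := hSY K f hf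
  have hT0 : 0 < T := by linarith
  set δ : ℝ := 1 / (64 * n * T) with hδ
  have hδ0 : 0 < δ := by positivity
  have hnT : 1 ≤ n * T := by nlinarith
  have hδ1 : δ ≤ 1 / 64 := by
    rw [hδ]
    apply one_div_le_one_div_of_le (by norm_num)
    nlinarith
  have hnδ : (Module.finrank ℚ K : ℝ) * δ ≤ 1 / 8 := by
    rw [hK, hδ]
    rw [mul_one_div, div_le_div_iff₀ (by positivity) (by norm_num)]
    nlinarith
  have hM0 : ∀ c, D.M c ≠ 0 := fun c => D.reps.1 c
  -- the bounded functions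
  let F : D.ι → K → logSpace K × ℝ × (InfinitePlace K → ℝ) → ℂ := fun c r p =>
    if r ∈ D.X c then Sp f δ Y b (D.M c) r p.2.1 p.1 p.2.2 else 0
  have hFm : ∀ c r, Measurable (F c r) := by
    intro c r
    by_cases hr : r ∈ D.X c
    · simp only [F, hr, if_true]
      exact (hSM K f (D.M c) r δ Y b hf (hM0 c) hδ0 hnδ hY).1
    · simp only [F, hr, if_false]
      exact measurable_const
  have hFb : ∃ C : ℝ, ∀ c r p, p.1 ∈ Fd K → ‖F c r p‖ ≤ C := by
    have h1 : ∀ c : D.ι, ∀ r : K, ∃ C : ℝ, 0 ≤ C ∧ ∀ (τ : ℝ) (z : logSpace K)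
        (θ : InfinitePlace K → ℝ), z ∈ Fd K → ‖Sp f δ Y b (D.M c) r τ z θ‖ ≤ C := by
      intro c r
      obtain ⟨C, hC⟩ := (hSM K f (D.M c) r δ Y b hf (hM0 c) hδ0 hnδ hY).2.2.1
      exact ⟨max C 0, le_max_right _ _, fun τ z θ hz => ((hC τ z θ hz).1).trans (le_max_left _ _)⟩
    choose Cb hCb0 hCb using h1
    refine ⟨∑ c, ∑ r ∈ D.X c, Cb c r, fun c r p hp => ?_⟩
    by_cases hr : r ∈ D.X c
    · simp only [F, hr, if_true]
      refine (hCb c r _ _ _ hp).trans ?_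
      refine (Finset.single_le_sum (f := fun r => Cb c r) (fun r _ => hCb0 c r) hr).trans ?_
      exact Finset.single_le_sum (f := fun c => ∑ r ∈ D.X c, Cb c r)
        (fun c _ => Finset.sum_nonneg fun r _ => hCb0 c r) (Finset.mem_univ c)
    · simp only [F, hr, if_false, norm_zero]
      exact Finset.sum_nonneg fun c _ => Finset.sum_nonneg fun r _ => hCb0 c r
  have hFs : ∀ c r p, F c r p ≠ 0 → p.2.1 ∈ Icc (-Real.log Y - 2) (-Real.log Y - 2 + 4) := by
    intro c r p hp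
    by_cases hr : r ∈ D.X c
    · simp only [F, hr, if_true] at hp
      have h1 := ((hSM K f (D.M c) r δ Y b hf (hM0 c) hδ0 hnδ hY).2.2.2 _ _ _).1 hp
      rw [abs_le] at h1
      constructor <;> linarith
    · simp only [F, hr, if_false, ne_eq, not_true_eq_false] at hp
  have hbt := hBT K f hf D S T (-Real.log Y - 2) F hT0 hFm hFb hFs
  -- the left side
  set w : ℝ := (torsionOrder K : ℝ) with hw
  have hw1 : 1 ≤ w := by
    rw [hw]
    exact_mod_cast Nat.one_le_iff_ne_zero.2 (NeZero.ne (torsionOrder K))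
  set a : ℝ := (w * (c * δ ^ n)) ^ 2 with ha
  have ha0 : 0 < a := by positivity
  have hleft : ENNReal.ofReal a * ∑ χ ∈ S, ∫⁻ t in Icc (-T) T,
      ENNReal.ofReal (‖bs χ.ψ b Y t‖ ^ 2) ≤
      ∑ χ ∈ S, ∫⁻ t in Icc (-T) T, ENNReal.ofReal (‖∑ c, ∑ r ∈ D.X c, cg χ (D.M c) r *
      ∫ p in Fd K ×ˢ (univ : Set ℝ) ×ˢ An K, ec K χ.ν p.1 * cexp (t * p.2.1 * I) *
        (ek χ.k p.2.2 * F c r p)‖ ^ 2) := by
    rw [Finset.mul_sum]
    refine Finset.sum_le_sum fun χ hχ => ?_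
    rw [← lintegral_const_mul' _ _ ENNReal.ofReal_ne_top]
    refine setLIntegral_mono' measurableSet_Icc fun t ht => ?_
    rw [← ENNReal.ofReal_mul ha0.le]
    refine ENNReal.ofReal_le_ofReal ?_
    have hub := hUB K f hf D χ δ Y t b hδ0 hnδ hY
    have heq : ∑ c, ∑ r ∈ D.X c, cg χ (D.M c) r *
      ∫ p in Fd K ×ˢ (univ : Set ℝ) ×ˢ An K, ec K χ.ν p.1 * cexp (t * p.2.1 * I) *
        (ek χ.k p.2.2 * F c r p) = (torsionOrder K : ℂ) * Uh K δ χ.k χ.ν t * bs χ.ψ b Y t := by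
      rw [← hub]
      refine Finset.sum_congr rfl fun c _ => Finset.sum_congr rfl fun r hr => ?_
      simp only [F, hr, if_true]
    rw [heq, norm_mul, norm_mul, mul_pow]
    have h1 : c * δ ^ n ≤ ‖Uh K δ χ.k χ.ν t‖ :=
      hUH K hK χ.k χ.ν T t δ (hS χ hχ) χ.norm_zero (abs_le.2 ht) hT hδ
    have h2 : ‖((torsionOrder K : ℕ) : ℂ)‖ = w := by rw [Complex.norm_natCast]
    rw [h2, ha]
    refine mul_le_mul_of_nonneg_right ?_ (by positivity)
    exact pow_le_pow_left₀ (by positivity) (mul_le_mul_of_nonneg_left h1 (by positivity)) 2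
  -- the right side
  set NN : ℝ := Nf K f * (2 * δ) ^ (-(n : ℝ)) with hNN
  set dd : ℝ := |(discr K : ℝ)| with hdd
  have hright : ∑ c, ∑ r ∈ D.X c, ∫⁻ p in Fd K ×ˢ (univ : Set ℝ) ×ˢ An K,
          ENNReal.ofReal (‖F c r p‖ ^ 2) ≤
      ENNReal.ofReal (β ^ 2) * (ENNReal.ofReal (C2 * δ ^ nrComplexPlaces K) *
        ENNReal.ofReal (C1 * κ ^ (-B) * (2 * δ) ^ np K * cw K * (dd * NN) ^ κ *
          (Y * (1 + Y / (Real.sqrt dd * NN))))) := by
    have hcn := hCN κ hκ hκ1 K hK f hf D.ι D.M D.reps (2 * δ) Y (by linarith) (by linarith) hY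
    refine le_trans ?_ (mul_le_mul_right (mul_le_mul_right hcn _) _)
    rw [Finset.mul_sum, Finset.mul_sum]
    refine Finset.sum_le_sum fun c _ => ?_
    have e1 : ∑ r ∈ D.X c, ∫⁻ p in Fd K ×ˢ (univ : Set ℝ) ×ˢ An K,
          ENNReal.ofReal (‖F c r p‖ ^ 2) = ∫⁻ z in Fd K, ∫⁻ τ : ℝ, ∫⁻ θ in An K,
            ∑ r ∈ D.X c, ENNReal.ofReal (‖F c r (z, τ, θ)‖ ^ 2) := by
      rw [← lintegral_finsetSum _ fun r _ => ((hFm c r).norm.pow_const 2).ennreal_ofReal]
      exact fub _ (Finset.measurable_fun_sum _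
        fun r _ => ((hFm c r).norm.pow_const 2).ennreal_ofReal)
    rw [e1, ← lintegral_const_mul' _ _ ENNReal.ofReal_ne_top,
      ← lintegral_const_mul' _ _ ENNReal.ofReal_ne_top]
    refine lintegral_mono fun z => ?_
    rw [← lintegral_const_mul' _ _ ENNReal.ofReal_ne_top,
      ← lintegral_const_mul' _ _ ENNReal.ofReal_ne_top]
    refine lintegral_mono fun τ => ?_
    have h1 : ∀ θ, ∑ r ∈ D.X c, ENNReal.ofReal (‖F c r (z, τ, θ)‖ ^ 2) ≤
        (ENNReal.ofReal (β ^ 2) * NB (2 * δ) ((f : FI K) * D.M c) (yM K (D.M c) τ z)) *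
          NP δ Y (D.M c) τ z θ := by
      intro θ
      have h2 := hPS K f (D.M c) (D.X c) δ Y β b τ z θ hf (hM0 c) (D.rep c) hδ0 (by linarith) hY hb
      refine le_trans (le_of_eq ?_) (h2.trans (le_of_eq (by ring)))
      refine Finset.sum_congr rfl fun r hr => ?_
      simp only [F, hr, if_true]
    refine (lintegral_mono h1).trans ?_
    rw [lintegral_const_mul _ (measurable_NP _ _ _ _ _)]
    have h3 := (hTH K hK δ Y τ (D.M c) z hδ0 (by linarith) hY (hM0 c)).1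
    calc (ENNReal.ofReal (β ^ 2) * NB (2 * δ) ((f : FI K) * D.M c) (yM K (D.M c) τ z)) *
          ∫⁻ θ in An K, NP δ Y (D.M c) τ z θ ≤
        (ENNReal.ofReal (β ^ 2) * NB (2 * δ) ((f : FI K) * D.M c) (yM K (D.M c) τ z)) *
          (ENNReal.ofReal (C2 * δ ^ nrComplexPlaces K) * NT (2 * δ) Y (D.M c) τ z) :=
          mul_le_mul_right h3 _
      _ = _ := by ring
  -- the final computation
  have hsum : np K + nrComplexPlaces K = n := by
    have h := card_add_two_mul_card_eq_rank K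
    rw [hK] at h
    unfold np
    omega
  have hcw : cw K ≤ w := by
    unfold cw
    rw [hw]
    refine mul_le_of_le_one_right (by positivity) ?_
    exact inv_le_one_of_one_le₀ (one_le_pow₀ (by norm_num))
  have hcw0 : 0 ≤ cw K := by
    unfold cw
    positivity
  have hN : 0 < Nf K f := by
    unfold Nf
    have : Ideal.absNorm f ≠ 0 := by
      rw [Ne, Ideal.absNorm_eq_zero_iff]
      exact hf
    exact_mod_cast Nat.pos_of_ne_zero this
  have hdd0 : 0 < dd := by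
    rw [hdd, abs_pos]
    exact_mod_cast NumberField.discr_ne_zero K
  have hR0 : (0 : ℝ) ≤ classNumber K * regulator K * Phi K f := by
    have := regulator_pos K
    positivity
  have hre := real_ineq n (np K) (nrComplexPlaces K) hn hsum c C1 C2 w (cw K) κ B β
    (classNumber K * regulator K * Phi K f) Y dd (Nf K f) T δ hc hC1 hC2 hw1 hcw0 hcw hκ hκ1 hR0
    hY hdd0 hN hT hδ
  have hmain := hleft.trans (hbt.trans (mul_le_mul_right hright _))
  have hinv : ENNReal.ofReal a⁻¹ * ENNReal.ofReal a = 1 := by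
    rw [← ENNReal.ofReal_mul (by positivity), inv_mul_cancel₀ ha0.ne', ENNReal.ofReal_one]
  calc ∑ χ ∈ S, ∫⁻ t in Icc (-T) T, ENNReal.ofReal (‖bs χ.ψ b Y t‖ ^ 2) =
      ENNReal.ofReal a⁻¹ * (ENNReal.ofReal a * ∑ χ ∈ S, ∫⁻ t in Icc (-T) T,
        ENNReal.ofReal (‖bs χ.ψ b Y t‖ ^ 2)) := by rw [← mul_assoc, hinv, one_mul]
    _ ≤ ENNReal.ofReal a⁻¹ * _ := mul_le_mul_right hmain _
    _ = ENNReal.ofReal (a⁻¹ * ((2 * Real.pi * (2 * Real.pi) ^ np K *
        (classNumber K * regulator K * Phi K f)) * (β ^ 2 * ((C2 * δ ^ nrComplexPlaces K) *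
        (C1 * κ ^ (-B) * (2 * δ) ^ np K * cw K * (dd * NN) ^ κ *
          (Y * (1 + Y / (Real.sqrt dd * NN)))))))) := by
        rw [← ENNReal.ofReal_mul (by positivity), ← ENNReal.ofReal_mul (by positivity),
          ← ENNReal.ofReal_mul (by positivity), ← ENNReal.ofReal_mul (by positivity)]
    _ ≤ _ := ENNReal.ofReal_le_ofReal hre

end Pool.Agent.H65.GLB
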